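import Mathlib

set_option autoImplicit false

namespace Pool.Agent.Results.MP_75529e_al.Counter

/-- `K` is an ideal of the ring `I` (an additive subgroup of `R` closed under the product):
`K ⊆ I` and `I K, K I ⊆ K`. -/
def IsIdealIn {R : Type} [NonUnitalNonAssocRing R] (I K : AddSubgroup R) : Prop :=
  K ≤ I ∧ ∀ a ∈ I, ∀ x ∈ K, a * x ∈ K ∧ x * a ∈ K

/-- The ring `I` has no nonzero ideal with zero square. -/
def Semiprime {R : Type} [NonUnitalNonAssocRing R] (I : AddSubgroup R) : Prop :=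
  ∀ K : AddSubgroup R, IsIdealIn I K → (∀ x ∈ K, ∀ y ∈ K, x * y = 0) → K = ⊥

def R : Type := ZMod 2 × ZMod 2 × ZMod 2

instance : AddCommGroup R := inferInstanceAs (AddCommGroup (ZMod 2 × ZMod 2 × ZMod 2))
instance : Fintype R := inferInstanceAs (Fintype (ZMod 2 × ZMod 2 × ZMod 2))
instance : DecidableEq R := inferInstanceAs (DecidableEq (ZMod 2 × ZMod 2 × ZMod 2))
instance : Mul R := ⟨fun x y =>
  (x.1 * y.2.1 + x.2.1 * y.1 + (x.1 + x.2.1) * y.2.2 + x.2.2 * (y.1 + y.2.1),
    (x.1 + x.2.1) * y.2.2 + x.2.2 * (y.1 + y.2.1), 0)⟩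

instance : NonUnitalNonAssocRing R where
  left_distrib := by decide
  right_distrib := by decide
  zero_mul := by decide
  mul_zero := by decide

def I : AddSubgroup R where
  carrier := {x | x.2.2 = 0}
  add_mem' := fun {x y} => by revert x y; simp only [Set.mem_ofPred_eq]; decide
  zero_mem' := rfl
  neg_mem' := fun {x} => by revert x; simp only [Set.mem_ofPred_eq]; decide

def K : AddSubgroup R where
  carrier := {x | x.2 = 0}
  add_mem' := fun {x y} => by revert x y; simp only [Set.mem_ofPred_eq]; decide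
  zero_mem' := rfl
  neg_mem' := fun {x} => by revert x; simp only [Set.mem_ofPred_eq]; decide

theorem result : ∃ (J : Type) (_ : NonUnitalNonAssocRing J),
    (∀ x y : J, x * y = y * x) ∧ (∀ x y : J, ((x * x) * y) * x = (x * x) * (y * x)) ∧
    Semiprime (⊤ : AddSubgroup J) ∧ ∃ I : AddSubgroup J, IsIdealIn ⊤ I ∧ ¬ Semiprime I := by
  refine ⟨R, inferInstance, by decide, by decide, fun K h h0 => ?_, I, ⟨le_top, ?_⟩, fun h => ?_⟩
  · refine eq_bot_iff.2 fun x hx => AddSubgroup.mem_bot.2 ?_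
    have key : ∀ x : R, (∀ a b c : R, (a * x) * (b * (c * x)) = 0) → x = 0 := by decide
    exact key x fun a b c => h0 _ (h.2 a trivial x hx).1 _
      (h.2 b trivial _ (h.2 c trivial x hx).1).1
  · have : ∀ a x : R, (a * x).2.2 = 0 := fun _ _ => rfl
    exact fun a _ x _ => ⟨this a x, this x a⟩
  · have k1 : ∀ a x : R, a.2.2 = 0 → x.2 = 0 → (a * x).2 = 0 ∧ (x * a).2 = 0 := by decide
    have k2 : ∀ x y : R, x.2 = 0 → y.2 = 0 → x * y = 0 := by decide
    have k3 : ∀ x : R, x.2 = 0 → x.2.2 = 0 := by decide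
    have := h K ⟨fun x hx => k3 x hx, fun a ha x hx => k1 a x ha hx⟩ fun x hx y hy => k2 x y hx hy
    obtain ⟨x, h1, h2⟩ : ∃ x : R, x.2 = 0 ∧ x ≠ 0 := by decide
    have m : x ∈ K := h1
    rw [this, AddSubgroup.mem_bot] at m
    exact h2 m

end Pool.Agent.Results.MP_75529e_al.Counter
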